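import Mathlib

set_option autoImplicit false

namespace Pool.Agent.V1162.SM

open Finset

abbrev S7 := Finset (Fin 7)

/-- pairwise intersecting -/
def Int (F : Finset S7) : Prop := ∀ X ∈ F, ∀ Y ∈ F, X ≠ Y → ¬ Disjoint X Y

instance (F : Finset S7) : Decidable (Int F) := by unfold Int; infer_instance

def cnt (s : ℕ) (A : Finset S7) : ℕ := ((A.powersetCard s).filter (fun F => Int F)).card

def Nord (A : Finset S7) : ℕ := (A.offDiag.filter (fun p => ¬ Disjoint p.1 p.2)).card
def Dord (A : Finset S7) : ℕ := (A.offDiag.filter (fun p => Disjoint p.1 p.2)).card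

lemma nord_add_dord (A : Finset S7) : Dord A + Nord A = A.card * A.card - A.card := by
  unfold Dord Nord
  rw [Finset.card_filter_add_card_filter_not, Finset.offDiag_card]

lemma nord_eq (A : Finset S7) : Nord A = 2 * cnt 2 A := by
  classical
  unfold Nord cnt
  set t := (A.powersetCard 2).filter (fun F => Int F) with ht
  have hmap : ∀ p ∈ A.offDiag.filter (fun p => ¬ Disjoint p.1 p.2), ({p.1, p.2} : Finset S7) ∈ t := by
    intro p hp
    rw [mem_filter, mem_offDiag] at hp
    obtain ⟨⟨h1, h2, h3⟩, h4⟩ := hp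
    rw [ht, mem_filter, mem_powersetCard]
    refine ⟨⟨?_, Finset.card_pair h3⟩, ?_⟩
    · intro z hz
      simp only [mem_insert, mem_singleton] at hz
      rcases hz with rfl | rfl
      · exact h1
      · exact h2
    · intro X hX Y hY hXY
      simp only [mem_insert, mem_singleton] at hX hY
      rcases hX with rfl | rfl <;> rcases hY with rfl | rfl
      · exact absurd rfl hXY
      · exact h4
      · rw [disjoint_comm]; exact h4
      · exact absurd rfl hXY
  rw [Finset.card_eq_sum_card_fiberwise hmap]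
  have : ∀ b ∈ t, ((A.offDiag.filter (fun p => ¬ Disjoint p.1 p.2)).filter
      (fun p => ({p.1, p.2} : Finset S7) = b)).card = 2 := by
    intro b hb
    rw [ht, mem_filter, mem_powersetCard] at hb
    obtain ⟨⟨hbA, hb2⟩, hbI⟩ := hb
    obtain ⟨X, Y, hXY, rfl⟩ := Finset.card_eq_two.mp hb2
    have hX : X ∈ A := hbA (by simp)
    have hY : Y ∈ A := hbA (by simp)
    have hD : ¬ Disjoint X Y := hbI X (by simp) Y (by simp) hXY
    have e : (A.offDiag.filter (fun p => ¬ Disjoint p.1 p.2)).filter
      (fun p => ({p.1, p.2} : Finset S7) = {X, Y}) = {(X, Y), (Y, X)} := by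
      ext ⟨P, Q⟩
      simp only [mem_filter, mem_offDiag, mem_insert, mem_singleton, Prod.mk.injEq]
      constructor
      · rintro ⟨⟨⟨h1, h2, h3⟩, h4⟩, h5⟩
        have hP : P ∈ ({X, Y} : Finset S7) := by rw [← h5]; simp
        have hQ : Q ∈ ({X, Y} : Finset S7) := by rw [← h5]; simp
        simp only [mem_insert, mem_singleton] at hP hQ
        rcases hP with rfl | rfl <;> rcases hQ with rfl | rfl
        · exact absurd rfl h3
        · exact Or.inl ⟨rfl, rfl⟩
        · exact Or.inr ⟨rfl, rfl⟩
        · exact absurd rfl h3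
      · rintro (⟨rfl, rfl⟩ | ⟨rfl, rfl⟩)
        · exact ⟨⟨⟨hX, hY, hXY⟩, hD⟩, rfl⟩
        · refine ⟨⟨⟨hY, hX, hXY.symm⟩, by rw [disjoint_comm]; exact hD⟩, Finset.pair_comm _ _⟩
    rw [e, Finset.card_pair]
    intro h
    exact hXY (Prod.mk.inj h).1
  rw [Finset.sum_congr rfl this, Finset.sum_const, smul_eq_mul, mul_comm]

/-- degree in the graph of disjoint pairs with union of size at least six -/
lemma deg_eq : ∀ X : S7, (univ.filter (fun Y : S7 => Disjoint X Y ∧ 6 ≤ X.card + Y.card)).card
    = 8 - X.card := by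
  decide +kernel

end Pool.Agent.V1162.SM
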