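import Mathlib
import Pool.Agent.V1162.SM.A

set_option autoImplicit false

namespace Pool.Agent.V1162.SM

open Finset

lemma sum_deg : ∑ X : S7, (8 - X.card) = 576 := by decide +kernel

lemma sum_pos : ∑ X : S7, (X.card - 3) = 102 := by decide +kernel

set_option maxRecDepth 10000 in
/-- the basic lower bound for the number of disjoint pairs, with its remainder terms -/
lemma dord_lower (A : Finset S7) (hA : A.card = 84) :
    768 + ∑ X : S7, ∑ Y : S7, (if (Disjoint X Y ∧ 6 ≤ X.card + Y.card) ∧ (X ∉ A ∧ Y ∉ A) then (1:ℤ) else 0)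
      ≤ Dord A + 2 * ∑ X ∈ A, (X.card : ℤ) := by
  classical
  have h1 : (Dord A : ℤ) ≥ ∑ X : S7, ∑ Y : S7,
      (if (Disjoint X Y ∧ 6 ≤ X.card + Y.card) ∧ (X ∈ A ∧ Y ∈ A) then (1:ℤ) else 0) := by
    unfold Dord
    have e : ∑ X : S7, ∑ Y : S7,
      (if (Disjoint X Y ∧ 6 ≤ X.card + Y.card) ∧ (X ∈ A ∧ Y ∈ A) then (1:ℤ) else 0)
      = (((univ : Finset (S7 × S7)).filter (fun p => (Disjoint p.1 p.2 ∧ 6 ≤ p.1.card + p.2.card)
          ∧ (p.1 ∈ A ∧ p.2 ∈ A))).card : ℤ) := by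
      rw [Finset.card_filter, ← Finset.univ_product_univ, Finset.sum_product]
      push_cast
      rfl
    rw [e]
    refine ge_iff_le.2 (Nat.cast_le.2 (Finset.card_le_card ?_))
    intro p hp
    simp only [mem_filter, mem_univ, true_and] at hp
    simp only [mem_filter, mem_offDiag]
    refine ⟨⟨hp.2.1, hp.2.2, ?_⟩, hp.1.1⟩
    intro he
    have h2 := hp.1.1
    rw [he, disjoint_self] at h2
    have h3 := hp.1.2
    rw [he, h2] at h3
    simp at h3
  have h2 : ∀ X : S7, ∀ Y : S7,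
      (if (Disjoint X Y ∧ 6 ≤ X.card + Y.card) ∧ (X ∈ A ∧ Y ∈ A) then (1:ℤ) else 0)
      = (if X ∈ A then (if (Disjoint X Y ∧ 6 ≤ X.card + Y.card) then (1:ℤ) else 0) else 0)
        + (if Y ∈ A then (if (Disjoint X Y ∧ 6 ≤ X.card + Y.card) then (1:ℤ) else 0) else 0)
        - (if (Disjoint X Y ∧ 6 ≤ X.card + Y.card) then (1:ℤ) else 0)
        + (if (Disjoint X Y ∧ 6 ≤ X.card + Y.card) ∧ (X ∉ A ∧ Y ∉ A) then (1:ℤ) else 0) := by
    intro X Y
    by_cases g1 : (Disjoint X Y ∧ 6 ≤ X.card + Y.card) <;> by_cases g2 : X ∈ A <;>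
      by_cases g3 : Y ∈ A <;> simp [g1, g2, g3]
  have hdeg : ∀ X : S7, ∑ Y : S7, (if (Disjoint X Y ∧ 6 ≤ X.card + Y.card) then (1:ℤ) else 0)
      = 8 - (X.card : ℤ) := by
    intro X
    have := deg_eq X
    have hc : X.card ≤ 7 := by
      calc X.card ≤ (univ : Finset (Fin 7)).card := Finset.card_le_univ X
        _ = 7 := by simp
    rw [← Finset.sum_filter, Finset.sum_const, this]
    simp only [nsmul_eq_mul, mul_one]
    omega
  have hdeg' : ∀ Y : S7, ∑ X : S7, (if (Disjoint X Y ∧ 6 ≤ X.card + Y.card) then (1:ℤ) else 0)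
      = 8 - (Y.card : ℤ) := by
    intro Y
    rw [← hdeg Y]
    apply Finset.sum_congr rfl
    intro X _
    have hiff : (Disjoint X Y ∧ 6 ≤ X.card + Y.card) ↔ (Disjoint Y X ∧ 6 ≤ Y.card + X.card) := by
      rw [disjoint_comm, add_comm]
    by_cases h : (Disjoint X Y ∧ 6 ≤ X.card + Y.card)
    · rw [if_pos h, if_pos (hiff.1 h)]
    · rw [if_neg h, if_neg (fun h' => h (hiff.2 h'))]
  have h3 : ∑ X : S7, ∑ Y : S7,
      (if X ∈ A then (if (Disjoint X Y ∧ 6 ≤ X.card + Y.card) then (1:ℤ) else 0) else 0)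
      = ∑ X ∈ A, (8 - (X.card : ℤ)) := by
    calc _ = ∑ X : S7, (if X ∈ A then (8 - (X.card : ℤ)) else 0) := by
          apply Finset.sum_congr rfl
          intro X _
          split_ifs
          · exact hdeg X
          · simp
      _ = _ := by rw [← Finset.sum_filter]; congr 1; ext; simp
  have h4 : ∑ X : S7, ∑ Y : S7,
      (if Y ∈ A then (if (Disjoint X Y ∧ 6 ≤ X.card + Y.card) then (1:ℤ) else 0) else 0)
      = ∑ X ∈ A, (8 - (X.card : ℤ)) := by
    rw [Finset.sum_comm]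
    calc _ = ∑ Y : S7, (if Y ∈ A then (8 - (Y.card : ℤ)) else 0) := by
          apply Finset.sum_congr rfl
          intro Y _
          split_ifs
          · exact hdeg' Y
          · simp
      _ = _ := by rw [← Finset.sum_filter]; congr 1; ext; simp
  have h5 : ∑ X : S7, ∑ Y : S7, (if (Disjoint X Y ∧ 6 ≤ X.card + Y.card) then (1:ℤ) else 0) = 576 := by
    rw [Finset.sum_congr rfl (fun X _ => hdeg X)]
    have h6 := sum_deg
    have h7 : ∑ X : S7, (8 - (X.card:ℤ)) = ((∑ X : S7, (8 - X.card) : ℕ) : ℤ) := by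
      push_cast
      apply Finset.sum_congr rfl
      intro X _
      have hc : X.card ≤ 7 := by
        calc X.card ≤ (univ : Finset (Fin 7)).card := Finset.card_le_univ X
          _ = 7 := by simp
      omega
    rw [h7, h6]
    rfl
  have h6 : ∑ X ∈ A, (8 - (X.card : ℤ)) = 672 - ∑ X ∈ A, (X.card : ℤ) := by
    rw [Finset.sum_sub_distrib, Finset.sum_const, hA]
    norm_num
  have h8 : ∑ X : S7, ∑ Y : S7,
      (if (Disjoint X Y ∧ 6 ≤ X.card + Y.card) ∧ (X ∈ A ∧ Y ∈ A) then (1:ℤ) else 0)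
      = 2 * (672 - ∑ X ∈ A, (X.card : ℤ)) - 576
        + ∑ X : S7, ∑ Y : S7, (if (Disjoint X Y ∧ 6 ≤ X.card + Y.card) ∧ (X ∉ A ∧ Y ∉ A) then (1:ℤ) else 0) := by
    calc _ = ∑ X : S7, ∑ Y : S7,
        ((if X ∈ A then (if (Disjoint X Y ∧ 6 ≤ X.card + Y.card) then (1:ℤ) else 0) else 0)
        + (if Y ∈ A then (if (Disjoint X Y ∧ 6 ≤ X.card + Y.card) then (1:ℤ) else 0) else 0)
        - (if (Disjoint X Y ∧ 6 ≤ X.card + Y.card) then (1:ℤ) else 0)
        + (if (Disjoint X Y ∧ 6 ≤ X.card + Y.card) ∧ (X ∉ A ∧ Y ∉ A) then (1:ℤ) else 0)) := by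
          apply Finset.sum_congr rfl; intro X _
          apply Finset.sum_congr rfl; intro Y _
          exact h2 X Y
      _ = _ := by
          simp only [Finset.sum_add_distrib, Finset.sum_sub_distrib]
          rw [h3, h4, h5, h6]
          ring
  rw [h8] at h1
  linarith

/-- structure of the families with few disjoint pairs -/
lemma structure_A (A : Finset S7) (hA : A.card = 84) (hD : Dord A ≤ 60) :
    (∀ X : S7, 4 ≤ X.card → X ∈ A) ∧ (∀ X ∈ A, 3 ≤ X.card) ∧
    (∀ X Y : S7, Disjoint X Y → 6 ≤ X.card + Y.card → X ∈ A ∨ Y ∈ A) := by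
  classical
  have h1 := dord_lower A hA
  set Z := ∑ X : S7, ∑ Y : S7, (if (Disjoint X Y ∧ 6 ≤ X.card + Y.card) ∧ (X ∉ A ∧ Y ∉ A) then (1:ℤ) else 0) with hZ
  have hZnn : 0 ≤ Z := Finset.sum_nonneg (fun X _ => Finset.sum_nonneg (fun Y _ => by
    split_ifs <;> norm_num))
  set w : S7 → ℤ := fun X => ((X.card - 3 : ℕ) : ℤ) - (if X ∈ A then ((X.card : ℤ) - 3) else 0) with hw
  have hwnn : ∀ X, 0 ≤ w X := by
    intro X
    simp only [hw]
    split_ifs <;> omega
  have hsum : ∑ X, w X = 354 - ∑ X ∈ A, (X.card : ℤ) := by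
    simp only [hw, Finset.sum_sub_distrib]
    have e1 : ∑ X : S7, (((X.card - 3 : ℕ)) : ℤ) = 102 := by
      have := sum_pos
      exact_mod_cast this
    have e2 : ∑ X : S7, (if X ∈ A then ((X.card : ℤ) - 3) else 0) = ∑ X ∈ A, (X.card : ℤ) - 252 := by
      rw [← Finset.sum_filter]
      have : (univ : Finset S7).filter (fun X => X ∈ A) = A := by ext; simp
      rw [this, Finset.sum_sub_distrib, Finset.sum_const, hA]
      norm_num
    rw [e1, e2]
    ring
  have hD' : (Dord A : ℤ) ≤ 60 := by exact_mod_cast hD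
  have hsw : ∑ X, w X ≤ 0 := by rw [hsum]; linarith
  have hsw0 : ∑ X, w X = 0 := le_antisymm hsw (Finset.sum_nonneg (fun X _ => hwnn X))
  have hw0 : ∀ X, w X = 0 := by
    intro X
    exact (Finset.sum_eq_zero_iff_of_nonneg (fun X _ => hwnn X)).1 hsw0 X (mem_univ X)
  have hZ0 : Z = 0 := by
    rw [hsum] at hsw0
    linarith
  refine ⟨?_, ?_, ?_⟩
  · intro X hX
    by_contra hcon
    have := hw0 X
    simp only [hw, hcon, if_false] at this
    omega
  · intro X hX
    by_contra hcon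
    have := hw0 X
    simp only [hw, hX, if_true] at this
    omega
  · intro X Y hXY hc
    by_contra hcon
    push Not at hcon
    have h2 : ∑ Y : S7, (if (Disjoint X Y ∧ 6 ≤ X.card + Y.card) ∧ (X ∉ A ∧ Y ∉ A) then (1:ℤ) else 0) = 0 :=
      (Finset.sum_eq_zero_iff_of_nonneg (fun X _ => Finset.sum_nonneg (fun Y _ => by
        split_ifs <;> norm_num))).1 hZ0 X (mem_univ X)
    have h3 := (Finset.sum_eq_zero_iff_of_nonneg (fun Y _ => by
        split_ifs <;> norm_num)).1 h2 Y (mem_univ Y)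
    rw [if_pos ⟨⟨hXY, hc⟩, hcon.1, hcon.2⟩] at h3
    norm_num at h3

def T3 : Finset S7 := powersetCard 3 univ

lemma mem_T3 {X : S7} : X ∈ T3 ↔ X.card = 3 := by
  unfold T3; simp [mem_powersetCard]

set_option maxRecDepth 100000 in
lemma F2 : ∀ X ∈ T3, ∀ W ∈ T3, (W ∩ X).card = 1 →
    (T3.filter (fun V => (V ∩ X).card = 1 ∧ Disjoint W V)).card = 2 := by
  decide +kernel

set_option maxRecDepth 100000 in
lemma F1 : ∀ X ∈ T3, (T3.filter (fun V => (V ∩ X).card = 1)).card = 18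
    ∧ (T3.filter (fun V => (V ∩ X).card = 0)).card = 4 ∧
      (T3.filter (fun V => Disjoint X V)).card = 4 := by
  decide +kernel

set_option maxRecDepth 100000 in
lemma F4 : ∀ X ∈ T3, ∀ W ∈ T3, 2 ≤ (W ∩ X).card → ∃ Y ∈ T3, Disjoint X Y ∧ Disjoint W Y := by
  decide +kernel

/-- an intersecting family of 15 triples does not contain all four triples disjoint
from a triple -/
lemma no_isolated (I : Finset S7) (hI3 : I ⊆ T3) (hI : I.card = 15)
    (hint : ∀ X ∈ I, ∀ Y ∈ I, ¬ Disjoint X Y) (X : S7) (hX : X ∈ T3) :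
    ∃ Y ∈ T3, Disjoint X Y ∧ Y ∉ I := by
  classical
  by_contra hcon
  push Not at hcon
  have h1 : ∀ W ∈ I, (W ∩ X).card ≤ 1 := by
    intro W hW
    by_contra hc
    push Not at hc
    obtain ⟨Y, hY, hXY, hWY⟩ := F4 X hX W (hI3 hW) hc
    exact hint W hW Y (hcon Y hY hXY) hWY
  set Q := T3.filter (fun V => (V ∩ X).card = 1) with hQ
  set Q0 := T3.filter (fun V => (V ∩ X).card = 0) with hQ0
  have hQc : Q.card = 18 := (F1 X hX).1
  have hQ0c : Q0.card = 4 := (F1 X hX).2.1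
  have hsplit : I.card ≤ (I ∩ Q).card + Q0.card := by
    have : I ⊆ (I ∩ Q) ∪ Q0 := by
      intro W hW
      have := h1 W hW
      rw [mem_union, mem_inter, hQ, hQ0, mem_filter, mem_filter]
      rcases Nat.eq_zero_or_pos (W ∩ X).card with h | h
      · exact Or.inr ⟨hI3 hW, h⟩
      · exact Or.inl ⟨hW, hI3 hW, by omega⟩
    exact (Finset.card_le_card this).trans (Finset.card_union_le _ _)
  -- double counting between I ∩ Q and Q \ I
  have hdc : (I ∩ Q).card * 2 ≤ (Q \ I).card * 2 := by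
    apply Finset.card_mul_le_card_mul (fun W V => Disjoint W V)
    · intro W hW
      rw [mem_inter] at hW
      have hW3 := hI3 hW.1
      have hWQ := (mem_filter.1 hW.2).2
      rw [← F2 X hX W hW3 hWQ]
      apply Finset.card_le_card
      intro V hV
      rw [mem_filter] at hV
      rw [Finset.mem_bipartiteAbove, mem_sdiff, hQ, mem_filter]
      refine ⟨⟨⟨hV.1, hV.2.1⟩, ?_⟩, hV.2.2⟩
      intro hVI
      exact hint W hW.1 V hVI hV.2.2
    · intro V hV
      rw [mem_sdiff, hQ, mem_filter] at hV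
      rw [← F2 X hX V hV.1.1 hV.1.2]
      apply Finset.card_le_card
      intro W hW
      rw [Finset.mem_bipartiteBelow, mem_inter, hQ, mem_filter] at hW
      rw [mem_filter]
      exact ⟨hW.1.2.1, hW.1.2.2, by rw [disjoint_comm]; exact hW.2⟩
  have h2 : (I ∩ Q).card + (Q \ I).card = Q.card := by
    rw [inter_comm, Finset.card_inter_add_card_sdiff]
  omega

end Pool.Agent.V1162.SM
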