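import Mathlib
import Pool.Agent.V1162.SM.B

set_option autoImplicit false

namespace Pool.Agent.V1162.SM

open Finset

/-- number of pairwise intersecting subfamilies -/
def C (G : Finset S7) : ℕ := (G.powerset.filter (fun H => Int H)).card

lemma Int.mono {F G : Finset S7} (h : F ⊆ G) (hG : Int G) : Int F :=
  fun X hX Y hY => hG X (h hX) Y (h hY)

lemma C_step (G : Finset S7) (X Y : S7) (hXY : X ≠ Y)
    (hd : Disjoint X Y) : C G ≤ 3 * C ((G.erase X).erase Y) := by
  classical
  unfold C
  have hmaps : ∀ H ∈ G.powerset.filter (fun H => Int H), (H.erase X).erase Y ∈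
      ((G.erase X).erase Y).powerset.filter (fun H => Int H) := by
    intro H hH
    rw [mem_filter, mem_powerset] at hH
    rw [mem_filter, mem_powerset]
    refine ⟨Finset.erase_subset_erase _ (Finset.erase_subset_erase _ hH.1), ?_⟩
    exact Int.mono ((Finset.erase_subset _ _).trans (Finset.erase_subset _ _)) hH.2
  rw [mul_comm]
  rw [mul_comm]
  apply Finset.card_le_mul_card_image_of_maps_to hmaps
  intro K hK
  have hsub : (G.powerset.filter (fun H => Int H)).filter (fun H => (H.erase X).erase Y = K)
      ⊆ {K, insert X K, insert Y K} := by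
    intro H hH
    rw [mem_filter, mem_filter] at hH
    obtain ⟨⟨h1, h2⟩, h3⟩ := hH
    simp only [mem_insert, mem_singleton]
    by_cases hx : X ∈ H
    · by_cases hy : Y ∈ H
      · exact absurd hd (h2 X hx Y hy hXY)
      · right; left
        have : (H.erase X).erase Y = H.erase X :=
          Finset.erase_eq_of_notMem (fun h => hy (Finset.mem_of_mem_erase h))
        rw [← h3, this, Finset.insert_erase hx]
    · by_cases hy : Y ∈ H
      · right; right
        have : H.erase X = H := Finset.erase_eq_of_notMem hx
        rw [← h3, this, Finset.insert_erase hy]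
      · left
        have e1 : H.erase X = H := Finset.erase_eq_of_notMem hx
        rw [← h3, e1, Finset.erase_eq_of_notMem hy]
  exact (Finset.card_le_card hsub).trans Finset.card_le_three

/-- a perfect matching of disjoint pairs -/
lemma C_matching : ∀ (k : ℕ) (G : Finset S7), G.card = 2 * k →
    (∀ X ∈ G, (G.filter (fun Y => X ≠ Y ∧ Disjoint X Y)).card = 1) → C G ≤ 3 ^ k := by
  classical
  intro k
  induction k with
  | zero =>
    intro G hG _
    have : G = ∅ := Finset.card_eq_zero.1 (by omega)
    subst this
    unfold C
    calc _ ≤ ((∅ : Finset S7).powerset).card := Finset.card_filter_le _ _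
      _ = 3^0 := by simp
  | succ k ih =>
    intro G hG hm
    have hne : G.Nonempty := Finset.card_pos.1 (by omega)
    obtain ⟨X, hX⟩ := hne
    obtain ⟨Y, hY⟩ := Finset.card_eq_one.1 (hm X hX)
    have hY' : Y ∈ G.filter (fun Y => X ≠ Y ∧ Disjoint X Y) := by rw [hY]; simp
    rw [mem_filter] at hY'
    obtain ⟨hYG, hXY, hd⟩ := hY'
    have h1 := C_step G X Y hXY hd
    have hYe : Y ∈ G.erase X := Finset.mem_erase.2 ⟨hXY.symm, hYG⟩
    have hcard : ((G.erase X).erase Y).card = 2 * k := by
      rw [Finset.card_erase_of_mem hYe, Finset.card_erase_of_mem hX]; omega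
    have h2 := ih ((G.erase X).erase Y) hcard (by
      intro Z hZ
      rw [mem_erase, mem_erase] at hZ
      obtain ⟨hZY, hZX, hZG⟩ := hZ
      rw [← hm Z hZG]
      congr 1
      ext W
      simp only [mem_filter, mem_erase]
      constructor
      · rintro ⟨⟨_, _, h3⟩, h4⟩
        exact ⟨h3, h4⟩
      · rintro ⟨h3, h4, h5⟩
        refine ⟨⟨?_, ?_, h3⟩, h4, h5⟩
        · rintro rfl
          -- W = Y : Y's only partner is X
          obtain ⟨V, hV⟩ := Finset.card_eq_one.1 (hm W hYG)
          have m1 : X ∈ G.filter (fun T => W ≠ T ∧ Disjoint W T) :=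
            mem_filter.2 ⟨hX, hXY.symm, hd.symm⟩
          have m2 : Z ∈ G.filter (fun T => W ≠ T ∧ Disjoint W T) :=
            mem_filter.2 ⟨hZG, h4.symm, h5.symm⟩
          rw [hV, mem_singleton] at m1 m2
          exact hZX (m2.trans m1.symm)
        · rintro rfl
          have m2 : Z ∈ G.filter (fun T => W ≠ T ∧ Disjoint W T) :=
            mem_filter.2 ⟨hZG, h4.symm, h5.symm⟩
          rw [hY, mem_singleton] at m2
          exact hZY m2)
    calc C G ≤ 3 * C ((G.erase X).erase Y) := h1
      _ ≤ 3 * 3^k := by omega
      _ = 3^(k+1) := by ring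

lemma card_univ7 : (univ : Finset S7).card = 128 := by simp

/-- an intersecting family with 64 members contains one set of every complementary pair -/
lemma one_of_each (F : Finset S7) (hF : F.card = 64) (hI : Int F) (X : S7) :
    X ∈ F ∨ Xᶜ ∈ F := by
  classical
  set F' := F.image (fun X => Xᶜ) with hF'
  have hc' : F'.card = 64 := by
    rw [hF', Finset.card_image_of_injective _ compl_injective, hF]
  have hdisj : Disjoint F F' := by
    rw [Finset.disjoint_left]
    intro Y hY hY'
    rw [hF', mem_image] at hY'
    obtain ⟨Z, hZ, hZY⟩ := hY'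
    have hne : Z ≠ Y := by
      intro h
      rw [h] at hZY
      exact (compl_ne_self (a := Y)) hZY
    have := hI Z hZ Y hY hne
    rw [← hZY] at this
    exact this disjoint_compl_right
  have hu : F ∪ F' = univ := by
    apply Finset.eq_univ_of_card
    rw [Finset.card_union_of_disjoint hdisj, hF, hc']
    simp
  have : X ∈ F ∪ F' := by rw [hu]; exact mem_univ X
  rw [mem_union] at this
  rcases this with h | h
  · exact Or.inl h
  · right
    rw [hF', mem_image] at h
    obtain ⟨Z, hZ, hZX⟩ := h
    rw [← hZX, compl_compl]
    exact hZ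

lemma not_both (F : Finset S7) (hI : Int F) (X : S7) (h1 : X ∈ F) (h2 : Xᶜ ∈ F) : False :=
  hI X h1 Xᶜ h2 (compl_ne_self (a := X)).symm disjoint_compl_right

/-- upper bound for the number of 64-element intersecting subfamilies -/
lemma cnt64_le (A : Finset S7) (h3 : ∀ X ∈ A, 3 ≤ X.card) :
    cnt 64 A ≤ C (A.filter (fun X => X.card = 3)) := by
  classical
  unfold cnt C
  apply Finset.card_le_card_of_injOn (fun F => F.filter (fun X => X.card = 3))
  · intro F hF
    rw [mem_coe, mem_filter, mem_powersetCard] at hF
    rw [mem_coe, mem_filter, mem_powerset]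
    exact ⟨Finset.filter_subset_filter _ hF.1.1, Int.mono (Finset.filter_subset _ _) hF.2⟩
  · intro F hF F' hF' he
    rw [mem_coe, mem_filter, mem_powersetCard] at hF hF'
    simp only at he
    apply Finset.eq_of_subset_of_card_le _ (by rw [hF.1.2, hF'.1.2])
    intro X hX
    have hXA := hF.1.1 hX
    have hX3 := h3 X hXA
    rcases eq_or_lt_of_le hX3 with h | h
    · have : X ∈ F.filter (fun X => X.card = 3) := mem_filter.2 ⟨hX, h.symm⟩
      rw [he] at this
      exact (mem_filter.1 this).1
    · rcases one_of_each F' hF'.1.2 hF'.2 X with g | g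
      · exact g
      · exfalso
        have hXc : Xᶜ.card = 7 - X.card := by
          rw [Finset.card_compl]; simp
        have g3 := h3 _ (hF'.1.1 g)
        have g4 : Xᶜ.card = 3 := by omega
        have g5 : Xᶜ ∈ F'.filter (fun X => X.card = 3) := mem_filter.2 ⟨g, g4⟩
        rw [← he] at g5
        exact not_both F hF.2 X hX (mem_filter.1 g5).1

/-- lower bound for the number of 64-element intersecting subfamilies -/
lemma le_cnt64 (G : Finset S7) (hG : ∀ X ∈ G, X.card = 3) :
    C G ≤ cnt 64 (univ.filter (fun X : S7 => 4 ≤ X.card) ∪ G) := by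
  classical
  unfold cnt C
  apply Finset.card_le_card_of_injOn
    (fun H => (univ.filter (fun X : S7 => 4 ≤ X.card ∧ Xᶜ ∉ H)) ∪ H)
  · intro H hH
    rw [mem_coe, mem_filter, mem_powerset] at hH
    rw [mem_coe, mem_filter, mem_powersetCard]
    refine ⟨⟨?_, ?_⟩, ?_⟩
    · apply Finset.union_subset_union _ hH.1
      intro X hX
      rw [mem_filter] at hX ⊢
      exact ⟨hX.1, hX.2.1⟩
    · -- cardinality
      have hd : Disjoint (univ.filter (fun X : S7 => 4 ≤ X.card ∧ Xᶜ ∉ H)) H := by
        rw [Finset.disjoint_left]
        intro X hX hX'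
        rw [mem_filter] at hX
        have := hG X (hH.1 hX')
        omega
      rw [Finset.card_union_of_disjoint hd]
      have e1 : (univ.filter (fun X : S7 => 4 ≤ X.card)).card = 64 := by decide +kernel
      have e2 : (univ.filter (fun X : S7 => 4 ≤ X.card ∧ Xᶜ ∉ H)) =
          (univ.filter (fun X : S7 => 4 ≤ X.card)) \ (H.image (fun X => Xᶜ)) := by
        ext X
        simp only [mem_filter, mem_univ, true_and, mem_sdiff, mem_image, not_exists, not_and]
        constructor
        · rintro ⟨g1, g2⟩
          refine ⟨g1, ?_⟩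
          intro Z hZ hZX
          apply g2
          rw [← hZX, compl_compl]
          exact hZ
        · rintro ⟨g1, g2⟩
          refine ⟨g1, ?_⟩
          intro hXc
          exact g2 _ hXc (compl_compl X)
      have e3 : (H.image (fun X => Xᶜ)) ⊆ (univ.filter (fun X : S7 => 4 ≤ X.card)) := by
        intro X hX
        rw [mem_image] at hX
        obtain ⟨Z, hZ, hZX⟩ := hX
        rw [mem_filter]
        refine ⟨mem_univ _, ?_⟩
        have := hG Z (hH.1 hZ)
        rw [← hZX, Finset.card_compl, this]
        simp
      rw [e2, Finset.card_sdiff_of_subset e3, e1,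
        Finset.card_image_of_injective _ compl_injective]
      have : H.card ≤ 64 := by
        calc H.card = (H.image (fun X => Xᶜ)).card :=
              (Finset.card_image_of_injective _ compl_injective).symm
          _ ≤ (univ.filter (fun X : S7 => 4 ≤ X.card)).card := Finset.card_le_card e3
          _ = 64 := e1
      omega
    · -- intersecting
      have key : ∀ X Y : S7, 4 ≤ X.card → Xᶜ ∉ H → Y ∈ H → ¬ Disjoint X Y := by
        intro X Y hX hXc hY hd
        have hY3 := hG Y (hH.1 hY)
        have hsub : Y ⊆ Xᶜ := by
          intro z hz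
          rw [mem_compl]
          exact fun h => (Finset.disjoint_left.1 hd) h hz
        have hXc' : Xᶜ.card = 7 - X.card := by rw [Finset.card_compl]; simp
        have : Y = Xᶜ := Finset.eq_of_subset_of_card_le hsub (by omega)
        exact hXc (this ▸ hY)
      intro X hX Y hY hXY
      rw [mem_union, mem_filter] at hX hY
      rcases hX with hX | hX <;> rcases hY with hY | hY
      · intro hd
        have := Finset.card_union_of_disjoint hd
        have h2 : (X ∪ Y).card ≤ 7 := by
          calc (X ∪ Y).card ≤ (univ : Finset (Fin 7)).card := Finset.card_le_univ _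
            _ = 7 := by simp
        omega
      · exact key X Y hX.2.1 hX.2.2 hY
      · rw [disjoint_comm]
        exact key Y X hY.2.1 hY.2.2 hX
      · exact hH.2 X hX Y hY hXY
  · intro H hH H' hH' he
    rw [mem_coe, mem_filter, mem_powerset] at hH hH'
    simp only at he
    have hf : ∀ K : Finset S7, K ⊆ G →
        ((univ.filter (fun X : S7 => 4 ≤ X.card ∧ Xᶜ ∉ K)) ∪ K).filter (fun X => X.card = 3) = K := by
      intro K hK
      ext X
      simp only [mem_filter, mem_union, mem_univ, true_and]
      constructor
      · rintro ⟨(h | h), h2⟩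
        · omega
        · exact h
      · intro h
        exact ⟨Or.inr h, hG X (hK h)⟩
    rw [← hf H hH.1, ← hf H' hH'.1, he]

end Pool.Agent.V1162.SM
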