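import Mathlib
import Pool.Agent.V1162.SM.C

set_option autoImplicit false

namespace Pool.Agent.V1162.SM

open Finset

def Ast : Finset S7 := univ.filter (fun X => 4 ≤ X.card ∨ (X.card = 3 ∧ (6 : Fin 7) ∉ X))

lemma card_Ast : Ast.card = 84 := by decide +kernel

set_option maxRecDepth 100000 in
lemma dord_Ast : Dord Ast = 60 := by decide +kernel

def O : Finset S7 := {{1,2,3},{1,2,4},{1,2,5},{1,2,6},{1,3,4}}
def St : Finset S7 := T3.filter (fun X => (0 : Fin 7) ∈ X)
def Gp : Finset S7 := O ∪ St
def Sc (H : Finset S7) : Finset S7 := St.filter (fun X => ∀ Y ∈ H, ¬ Disjoint X Y)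
def Apr : Finset S7 := univ.filter (fun X : S7 => 4 ≤ X.card) ∪ Gp

lemma card_Apr : Apr.card = 84 := by decide +kernel

lemma card_Gp3 : ∀ X ∈ Gp, X.card = 3 := by decide +kernel

lemma O_St : Disjoint O St := by decide +kernel

lemma O_int : ∀ X ∈ O, ∀ Y ∈ O, ¬ Disjoint X Y := by decide +kernel

set_option maxRecDepth 100000 in
lemma sum_Sc : ∑ H ∈ O.powerset, 2 ^ (Sc H).card = 67072 := by decide +kernel

lemma C_Gp : 67072 ≤ C Gp := by
  classical
  rw [← sum_Sc]
  have e : ∑ H ∈ O.powerset, 2 ^ (Sc H).card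
      = (O.powerset.sigma (fun H => (Sc H).powerset)).card := by
    rw [Finset.card_sigma]
    apply Finset.sum_congr rfl
    intro H _
    rw [Finset.card_powerset]
  rw [e]
  unfold C
  apply Finset.card_le_card_of_injOn (fun p => p.1 ∪ p.2)
  · rintro ⟨H, K⟩ hp
    rw [mem_coe, mem_sigma, mem_powerset, mem_powerset] at hp
    simp only at hp
    rw [mem_coe, mem_filter, mem_powerset]
    simp only
    refine ⟨Finset.union_subset_union hp.1 (hp.2.trans (Finset.filter_subset _ _)), ?_⟩
    intro X hX Y hY _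
    rw [mem_union] at hX hY
    rcases hX with hX | hX <;> rcases hY with hY | hY
    · exact O_int X (hp.1 hX) Y (hp.1 hY)
    · have := (mem_filter.1 (hp.2 hY)).2 X hX
      rwa [disjoint_comm]
    · exact (mem_filter.1 (hp.2 hX)).2 Y hY
    · intro hd
      have h1 : (0 : Fin 7) ∈ X := (mem_filter.1 ((mem_filter.1 (hp.2 hX)).1)).2
      have h2 : (0 : Fin 7) ∈ Y := (mem_filter.1 ((mem_filter.1 (hp.2 hY)).1)).2
      exact (Finset.disjoint_left.1 hd) h1 h2
  · rintro ⟨H, K⟩ hp ⟨H', K'⟩ hp' he
    rw [mem_coe, mem_sigma, mem_powerset, mem_powerset] at hp hp'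
    simp only at hp hp' he
    have f1 : ∀ (H K : Finset S7), H ⊆ O → K ⊆ Sc H → (H ∪ K).filter (fun X => X ∈ O) = H := by
      intro H K hH hK
      ext X
      simp only [mem_filter, mem_union]
      constructor
      · rintro ⟨(h | h), h2⟩
        · exact h
        · exact absurd (mem_filter.1 (hK h)).1 (fun h3 => (Finset.disjoint_left.1 O_St) h2 h3)
      · intro h
        exact ⟨Or.inl h, hH h⟩
    have f2 : ∀ (H K : Finset S7), H ⊆ O → K ⊆ Sc H → (H ∪ K).filter (fun X => X ∉ O) = K := by
      intro H K hH hK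
      ext X
      simp only [mem_filter, mem_union]
      constructor
      · rintro ⟨(h | h), h2⟩
        · exact absurd (hH h) h2
        · exact h
      · intro h
        exact ⟨Or.inr h, fun h2 => (Finset.disjoint_left.1 O_St) h2 (mem_filter.1 (hK h)).1⟩
    have g1 : H = H' := by rw [← f1 H K hp.1 hp.2, ← f1 H' K' hp'.1 hp'.2, he]
    have g2 : K = K' := by rw [← f2 H K hp.1 hp.2, ← f2 H' K' hp'.1 hp'.2, he]
    rw [g1, g2]

lemma card_T3 : T3.card = 35 := by decide +kernel

lemma card_ge4 : (univ.filter (fun X : S7 => 4 ≤ X.card)).card = 64 := by decide +kernel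

/-- the upper bound for the 2-maximisers -/
lemma cnt64_le_of_dord (A : Finset S7) (hA : A.card = 84) (hD : Dord A ≤ 60) :
    cnt 64 A ≤ 3 ^ 10 := by
  classical
  obtain ⟨h4, h3, h33⟩ := structure_A A hA hD
  refine (cnt64_le A h3).trans ?_
  set G := A.filter (fun X => X.card = 3) with hG
  have hG3 : ∀ X ∈ G, X.card = 3 := fun X hX => (mem_filter.1 hX).2
  have hGT : G ⊆ T3 := fun X hX => mem_T3.2 (hG3 X hX)
  -- |G| = 20
  have hGc : G.card = 20 := by
    have e : A = univ.filter (fun X : S7 => 4 ≤ X.card) ∪ G := by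
      ext X
      rw [mem_union, mem_filter, hG, mem_filter]
      constructor
      · intro hX
        rcases eq_or_lt_of_le (h3 X hX) with g | g
        · exact Or.inr ⟨hX, g.symm⟩
        · exact Or.inl ⟨mem_univ _, g⟩
      · rintro (h | h)
        · exact h4 X h.2
        · exact h.1
    have hd : Disjoint (univ.filter (fun X : S7 => 4 ≤ X.card)) G := by
      rw [Finset.disjoint_left]
      intro X hX hX'
      rw [mem_filter] at hX
      have := hG3 X hX'
      omega
    have := congrArg Finset.card e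
    rw [Finset.card_union_of_disjoint hd, card_ge4, hA] at this
    omega
  set I := T3 \ G with hI
  have hIc : I.card = 15 := by
    rw [hI, Finset.card_sdiff_of_subset hGT, card_T3, hGc]
  have hIint : ∀ X ∈ I, ∀ Y ∈ I, ¬ Disjoint X Y := by
    intro X hX Y hY hd
    rw [hI, mem_sdiff, mem_T3] at hX hY
    rcases h33 X Y hd (by omega) with g | g
    · exact hX.2 (mem_filter.2 ⟨g, hX.1⟩)
    · exact hY.2 (mem_filter.2 ⟨g, hY.1⟩)
  -- every member of G has a disjoint partner in G
  have hex : ∀ X ∈ G, 1 ≤ (G.filter (fun Y => X ≠ Y ∧ Disjoint X Y)).card := by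
    intro X hX
    obtain ⟨Y, hY, hXY, hYI⟩ := no_isolated I Finset.sdiff_subset hIc hIint X (hGT hX)
    apply Finset.card_pos.2
    refine ⟨Y, mem_filter.2 ⟨?_, ?_, hXY⟩⟩
    · by_contra hcon
      exact hYI (mem_sdiff.2 ⟨hY, hcon⟩)
    · rintro rfl
      rw [disjoint_self] at hXY
      have := hG3 X hX
      rw [hXY] at this
      simp at this
  -- degrees
  have hdeg4 : ∀ X ∈ T3, (T3.filter (fun V => Disjoint X V)).card = 4 := fun X hX => (F1 X hX).2.2
  have htot : ∑ X ∈ G, (G.filter (fun Y => X ≠ Y ∧ Disjoint X Y)).card = 20 := by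
    -- number of pairs between I and G is 60
    have s1 : ∀ X ∈ G, (G.filter (fun Y => X ≠ Y ∧ Disjoint X Y)).card
        + (I.filter (fun Y => Disjoint X Y)).card = 4 := by
      intro X hX
      rw [← hdeg4 X (hGT hX)]
      have hd : Disjoint (G.filter (fun Y => X ≠ Y ∧ Disjoint X Y)) (I.filter (fun Y => Disjoint X Y)) := by
        rw [Finset.disjoint_left]
        intro Y hY hY'
        exact (mem_sdiff.1 (mem_filter.1 hY').1).2 (mem_filter.1 hY).1
      rw [← Finset.card_union_of_disjoint hd]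
      congr 1
      ext Y
      simp only [mem_union, mem_filter, hI, mem_sdiff]
      constructor
      · rintro (h | h)
        · exact ⟨hGT h.1, h.2.2⟩
        · exact ⟨h.1.1, h.2⟩
      · rintro ⟨h1, h2⟩
        by_cases hYG : Y ∈ G
        · left
          refine ⟨hYG, ?_, h2⟩
          rintro rfl
          rw [disjoint_self] at h2
          have := hG3 X hX
          rw [h2] at this
          simp at this
        · exact Or.inr ⟨⟨h1, hYG⟩, h2⟩
    have s2 : ∀ X ∈ I, (G.filter (fun Y => Disjoint X Y)).card = 4 := by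
      intro X hX
      have hXT : X ∈ T3 := (mem_sdiff.1 hX).1
      rw [← hdeg4 X hXT]
      congr 1
      ext Y
      simp only [mem_filter]
      constructor
      · rintro ⟨h1, h2⟩
        exact ⟨hGT h1, h2⟩
      · rintro ⟨h1, h2⟩
        refine ⟨?_, h2⟩
        by_contra hcon
        exact hIint X hX Y (mem_sdiff.2 ⟨h1, hcon⟩) h2
    have s3 : ∑ X ∈ G, (I.filter (fun Y => Disjoint X Y)).card
        = ∑ Y ∈ I, (G.filter (fun X => Disjoint Y X)).card := by
      simp only [Finset.card_filter]
      rw [Finset.sum_comm]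
      apply Finset.sum_congr rfl; intro Y _
      apply Finset.sum_congr rfl; intro X _
      have hiff : Disjoint X Y ↔ Disjoint Y X := disjoint_comm
      by_cases h : Disjoint X Y
      · rw [if_pos h, if_pos (hiff.1 h)]
      · rw [if_neg h, if_neg (fun h' => h (hiff.2 h'))]
    have s4 : ∑ Y ∈ I, (G.filter (fun X => Disjoint Y X)).card = 60 := by
      rw [Finset.sum_congr rfl s2, Finset.sum_const, hIc]
      rfl
    have s5 : ∑ X ∈ G, ((G.filter (fun Y => X ≠ Y ∧ Disjoint X Y)).card
        + (I.filter (fun Y => Disjoint X Y)).card) = 80 := by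
      rw [Finset.sum_congr rfl s1, Finset.sum_const, hGc]
      rfl
    rw [Finset.sum_add_distrib, s3, s4] at s5
    omega
  apply C_matching 10 G (by omega)
  intro X hX
  by_contra hne
  have hlt : 1 < (G.filter (fun Y => X ≠ Y ∧ Disjoint X Y)).card :=
    lt_of_le_of_ne (hex X hX) (Ne.symm hne)
  have : ∑ X ∈ G, 1 < ∑ X ∈ G, (G.filter (fun Y => X ≠ Y ∧ Disjoint X Y)).card :=
    Finset.sum_lt_sum hex ⟨X, hX, hlt⟩
  rw [htot, Finset.sum_const, hGc] at this
  simp at this

theorem no_simultaneous : ¬ ∃ A : Finset S7, A.card = 84 ∧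
    ∀ s : ℕ, ∀ B : Finset S7, B.card = 84 → cnt s B ≤ cnt s A := by
  rintro ⟨A, hA, h⟩
  have h2 := h 2 Ast card_Ast
  have n1 := nord_eq A
  have n2 := nord_eq Ast
  have m1 := nord_add_dord A
  have m2 := nord_add_dord Ast
  rw [hA] at m1
  rw [card_Ast, dord_Ast] at m2
  have hD : Dord A ≤ 60 := by omega
  have h64 := h 64 Apr card_Apr
  have k1 : 67072 ≤ cnt 64 Apr := C_Gp.trans (le_cnt64 Gp card_Gp3)
  have k2 := cnt64_le_of_dord A hA hD
  norm_num at k2
  omega

end Pool.Agent.V1162.SM
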